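import Pool.Agent.Helper87.VM.Stmts

set_option autoImplicit false

/-! # The common kernel of the conjugates is generated by the small maximal ideal (ALGJ) -/

namespace Pool.Agent.Helper87.VM

open MvPolynomial Pool.Agent.Helper48.VMRT

theorem st_ALGJ : ST_ALGJ := by
  classical
  intro R _ _ A Γ φ hA hfin _ hfix H1 _ H3 x hx
  set I : Ideal R := Ideal.span {a : R | a ∈ A ∧ φ a = 0} with hI
  -- the ring is noetherian
  have hN1 : IsNoetherian A R := isNoetherian_of_isNoetherianRing_of_finite A R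
  have hN : IsNoetherianRing R := isNoetherian_of_tower A hN1
  -- reduction of elements of `A` modulo `I`
  have hred : ∀ a ∈ A, a - algebraMap ℂ R (φ a) ∈ I := by
    intro a ha
    apply Ideal.subset_span
    refine ⟨A.sub_mem ha (A.algebraMap_mem _), ?_⟩
    rw [map_sub, AlgHom.commutes]
    simp
  -- maximal ideals containing `I`
  have hmax : ∀ n : Ideal R, n.IsMaximal → I ≤ n → ∃ γ ∈ Γ, ∀ r, r ∈ n ↔ φ (γ r) = 0 := by
    intro n hn hIn
    let _ : Field (R ⧸ n) := Ideal.Quotient.field n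
    have hfac : (algebraMap ℂ (R ⧸ n)).comp ((φ : R →+* ℂ).comp (algebraMap A R)) =
        (Ideal.Quotient.mk n).comp (algebraMap A R) := by
      apply RingHom.ext
      intro a
      have h1 : Ideal.Quotient.mk n ((a : R) - algebraMap ℂ R (φ a)) = 0 :=
        Ideal.Quotient.eq_zero_iff_mem.2 (hIn (hred a a.2))
      rw [map_sub, sub_eq_zero] at h1
      exact h1.symm
    have hf0 : (algebraMap A R).Finite := RingHom.finite_algebraMap.2 hfin
    have hf1 : ((Ideal.Quotient.mk n).comp (algebraMap A R)).Finite :=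
      RingHom.Finite.comp (RingHom.Finite.of_surjective _ Ideal.Quotient.mk_surjective) hf0
    rw [← hfac] at hf1
    have hf2 : (algebraMap ℂ (R ⧸ n)).Finite := RingHom.Finite.of_comp_finite hf1
    have : Module.Finite ℂ (R ⧸ n) := RingHom.finite_algebraMap.1 hf2
    have hbij : Function.Bijective (algebraMap ℂ (R ⧸ n)) :=
      IsAlgClosed.algebraMap_bijective_of_isIntegral
    let e : ℂ ≃ₐ[ℂ] (R ⧸ n) := AlgEquiv.ofBijective (Algebra.ofId ℂ (R ⧸ n)) hbij
    let ψ : R →ₐ[ℂ] ℂ := (e.symm : (R ⧸ n) →ₐ[ℂ] ℂ).comp (Ideal.Quotient.mkₐ ℂ n)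
    have hψker : ∀ r, ψ r = 0 ↔ r ∈ n := by
      intro r
      change e.symm (Ideal.Quotient.mk n r) = 0 ↔ r ∈ n
      rw [← Ideal.Quotient.eq_zero_iff_mem]
      exact EmbeddingLike.map_eq_zero_iff
    have hψA : ∀ a ∈ A, ψ a = φ a := by
      intro a ha
      have h1 : ψ (a - algebraMap ℂ R (φ a)) = 0 := (hψker _).2 (hIn (hred a ha))
      rw [map_sub, AlgHom.commutes, sub_eq_zero] at h1
      exact h1
    obtain ⟨γ, hγ, hγ2⟩ := H1 ψ hψA
    exact ⟨γ, hγ, fun r => by rw [← hψker, hγ2]⟩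
  by_contra hxI
  -- the ideal of multipliers
  let K : Ideal R :=
    { carrier := {r | r * x ∈ I}
      add_mem' := fun {a b} ha hb => by
        change (a + b) * x ∈ I
        rw [add_mul]
        exact I.add_mem ha hb
      zero_mem' := by
        change 0 * x ∈ I
        rw [zero_mul]
        exact I.zero_mem
      smul_mem' := fun c a ha => by
        change (c * a) * x ∈ I
        rw [mul_assoc]
        exact I.mul_mem_left c ha }
  have hK : K ≠ ⊤ := by
    intro h
    have h1 : (1 : R) ∈ K := by rw [h]; trivial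
    apply hxI
    have h2 : 1 * x ∈ I := h1
    rwa [one_mul] at h2
  obtain ⟨n, hn, hKn⟩ := Ideal.exists_le_maximal K hK
  have hIK : I ≤ K := fun r hr => I.mul_mem_right x hr
  obtain ⟨γ, hγ, hγn⟩ := hmax n hn (hIK.trans hKn)
  have hxn : x ∈ n := (hγn x).2 (hx γ hγ)
  -- the maximal ideal is idempotent modulo `I`
  have hsq : n ≤ I ⊔ n ^ 2 := by
    intro r hr
    have h1 := H3 (γ r) ((hγn r).1 hr)
    have h2 : γ.symm (γ r) ∈ (I ⊔ (RingHom.ker φ) ^ 2).map (γ.symm : R ≃ₐ[ℂ] R) :=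
      Ideal.mem_map_of_mem _ h1
    rw [γ.symm_apply_apply, Ideal.map_sup, Ideal.map_pow] at h2
    have h5 : Ideal.map γ.symm I ≤ I := by
      rw [hI, Ideal.map_span]
      apply Ideal.span_mono
      rintro _ ⟨a, ⟨ha, ha2⟩, rfl⟩
      have h3 : γ.symm a = a := by
        conv_lhs => rw [← hfix γ hγ a ha]
        rw [γ.symm_apply_apply]
      change γ.symm a ∈ A ∧ φ (γ.symm a) = 0
      rw [h3]
      exact ⟨ha, ha2⟩
    have h6 : Ideal.map γ.symm (RingHom.ker φ) ≤ n := by
      rw [Ideal.map_le_iff_le_comap]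
      intro z hz
      rw [Ideal.mem_comap, hγn, γ.apply_symm_apply]
      exact hz
    have h7 : Ideal.map γ.symm I ⊔ Ideal.map γ.symm (RingHom.ker φ) ^ 2 ≤ I ⊔ n ^ 2 :=
      sup_le_sup h5 (Ideal.pow_right_mono h6 2)
    exact h7 h2
  -- Nakayama
  let N : Submodule R (R ⧸ I) := Submodule.map (Submodule.mkQ I) n
  have hNfg : N.FG := IsNoetherian.noetherian N
  have hNle : N ≤ n • N := by
    rintro _ ⟨r, hr, rfl⟩
    obtain ⟨i, hi, j, hj, hij⟩ := Submodule.mem_sup.1 (hsq hr)
    have h1 : Submodule.mkQ I r = Submodule.mkQ I j := by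
      rw [← hij, map_add, Submodule.mkQ_apply, (Submodule.Quotient.mk_eq_zero I).2 hi, zero_add]
    rw [h1]
    have h2 : n • N = Submodule.map (Submodule.mkQ I) (n • n) := by
      rw [Submodule.map_smul'']
    rw [h2]
    refine ⟨j, ?_, rfl⟩
    change j ∈ (n • n : Submodule R R)
    rw [pow_two] at hj
    exact hj
  obtain ⟨e, he1, he2⟩ :=
    Submodule.exists_sub_one_mem_and_smul_eq_zero_of_fg_of_le_smul n N hNfg hNle
  have h1 : e • Submodule.mkQ I x = 0 := he2 _ ⟨x, hxn, rfl⟩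
  have h2 : e * x ∈ I := by
    rw [← map_smul, Submodule.mkQ_apply, Submodule.Quotient.mk_eq_zero] at h1
    exact h1
  have h3 : e ∈ n := hKn h2
  apply hn.ne_top
  rw [Ideal.eq_top_iff_one]
  have h4 := n.sub_mem h3 he1
  rwa [sub_sub_cancel] at h4

end Pool.Agent.Helper87.VM
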