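import Pool.Agent.Helper87.VM.Stmts
import Pool.Agent.Helper87.VM.Lib

set_option autoImplicit false

/-! # The divisor at infinity is a linear section (BAD) -/

namespace Pool.Agent.Helper87.VM

open MvPolynomial Pool.Agent.Helper48.VMRT

section Bad

variable {G κB κY : Type} [Group G] [Fintype G] [Fintype κB] [Fintype κY]
  (ρB : G →* ((κB → ℂ) →ₗ[ℂ] (κB → ℂ))) (ρY : G →* ((κY → ℂ) →ₗ[ℂ] (κY → ℂ)))

/-- the invariant form built from `q` and the `k`-th power of the coordinate `i` -/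
noncomputable def bad_phi (k : ℕ) (q : MvPolynomial κB ℂ) (i : κY) :
    MvPolynomial (κB ⊕ κY) ℂ :=
  ∑ g : G, pull ((ρB g).comp (LinearMap.funLeft ℂ ℂ Sum.inl)) q *
    linp ((LinearMap.proj i).comp ((ρY g).comp (LinearMap.funLeft ℂ ℂ Sum.inr))) ^ k

theorem bad_eval (k : ℕ) (q : MvPolynomial κB ℂ) (i : κY) (b : κB → ℂ) (y : κY → ℂ) :
    eval (Sum.elim b y) (bad_phi ρB ρY k q i) =
      ∑ g : G, eval (ρB g b) q * (ρY g y i) ^ k := by
  unfold bad_phi
  rw [map_sum]
  refine Finset.sum_congr rfl fun g _ => ?_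
  rw [map_mul, map_pow, eval_pull, eval_linp]
  rfl

theorem bad_hom {T : ℕ} (k : ℕ) {q : MvPolynomial κB ℂ} (hq : HomE T q) (i : κY) :
    BiHom T k (bad_phi ρB ρY k q i) := by
  intro a c b y
  rw [bad_eval, bad_eval, Finset.mul_sum]
  refine Finset.sum_congr rfl fun g _ => ?_
  rw [map_smul, map_smul, hq a, Pi.smul_apply, smul_eq_mul, mul_pow]
  ring

theorem bad_inv (k : ℕ) (q : MvPolynomial κB ℂ) (i : κY) :
    BiInv ρB ρY (bad_phi ρB ρY k q i) := by
  intro h b y
  rw [bad_eval, bad_eval]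
  have e1 : ∀ g : G, ρB g (ρB h b) = ρB (g * h) b := fun g => by
    rw [map_mul, Module.End.mul_apply]
  have e2 : ∀ g : G, ρY g (ρY h y) = ρY (g * h) y := fun g => by
    rw [map_mul, Module.End.mul_apply]
  simp only [e1, e2]
  exact Equiv.sum_comp (Equiv.mulRight h) (fun g => eval (ρB g b) q * (ρY g y i) ^ k)

end Bad

theorem st_BAD (hB : ST_BUMP0) : ST_BAD := by
  classical
  intro D hD
  have hlin : ∀ (q : {q : MvPolynomial D.κB ℂ // HomE (D.k * D.t) q}) (j : D.ν),
      ∃ l : (Fin (D.N + 1) → ℂ) →ₗ[ℂ] ℂ, ∀ b y, l (ev2 D.E b y) =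
        eval (Sum.elim b y) (bad_phi (prep D.π) D.ρY D.k q.1 (none, j)) := fun q j =>
    hD.xd.lin _ (bad_hom _ _ _ q.2 _) (bad_inv _ _ _ _ _)
  choose l hl using hlin
  refine ⟨⨅ q, ⨅ j, LinearMap.ker (l q j), ?_⟩
  intro b hb hb0 y hy hy0
  have hmem : ev2 D.E b y ∈ (⨅ q, ⨅ j, LinearMap.ker (l q j)) ↔
      ∀ (q : {q : MvPolynomial D.κB ℂ // HomE (D.k * D.t) q}) (j : D.ν),
        eval (Sum.elim b y) (bad_phi (prep D.π) D.ρY D.k q.1 (none, j)) = 0 := by
    rw [Submodule.mem_iInf]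
    refine forall_congr' fun q => ?_
    rw [Submodule.mem_iInf]
    refine forall_congr' fun j => ?_
    rw [LinearMap.mem_ker, hl]
  rw [hmem]
  have hk := hD.kpos
  constructor
  · intro h j
    by_contra hj
    have hkG := hD.kG
    have htb := hD.tbig
    have hT : Fintype.card D.G ≤ D.k * D.t + 1 := by
      have h1 : D.k * 1 ≤ D.k * D.t := Nat.mul_le_mul_left _ (by omega)
      omega
    obtain ⟨q, hq, hq1, hq0⟩ := hB D.G D.κB (prep D.π) D.B (D.k * D.t) hD.Bfree hT b hb hb0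
    have h1 := h ⟨q, hq⟩ j
    rw [bad_eval, Finset.sum_eq_single (1 : D.G)
      (fun g _ hg => by rw [hq0 g hg, zero_mul])
      (fun h => absurd (Finset.mem_univ _) h), map_one, map_one, Module.End.one_apply,
      Module.End.one_apply, hq1, one_mul] at h1
    exact hj (pow_eq_zero_iff (by omega) |>.1 h1)
  · intro h q j
    obtain ⟨x, η, rfl, _⟩ := hy
    have hx : x none = 0 := by
      by_contra hx
      apply hy0
      have : η = 0 := by
        funext i
        have h1 := h i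
        rw [seg_apply] at h1
        exact (mul_eq_zero.1 h1).resolve_left hx
      rw [this, seg_zero_right]
    rw [bad_eval]
    refine Finset.sum_eq_zero fun g _ => ?_
    have h2 : D.ρY g (seg x η) (none, j) = 0 := by
      change tens (oext D.ρ) D.ρν g (seg x η) (none, j) = 0
      rw [tens_seg, seg_apply, oext_none, hx, zero_mul]
    rw [h2, zero_pow (by omega), mul_zero]

end Pool.Agent.Helper87.VM
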