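import Pool.Agent.Helper87.VM.Stmts
import Pool.Agent.Helper87.VM.Lib

set_option autoImplicit false

/-! # Invariant forms with prescribed behaviour (BUMP0, BUMP) -/

namespace Pool.Agent.Helper87.VM

open MvPolynomial Pool.Agent.Helper48.VMRT

/-- a linear form separating `x` from the line of `u` -/
theorem bump_lf {κ : Type} [Fintype κ] (u x : κ → ℂ) (h : ∀ a : ℂ, x ≠ a • u) :
    ∃ l : (κ → ℂ) →ₗ[ℂ] ℂ, l u = 0 ∧ l x = 1 := by
  have hx : x ∉ Submodule.span ℂ {u} := by
    intro hx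
    obtain ⟨a, ha⟩ := Submodule.mem_span_singleton.1 hx
    exact h a ha.symm
  obtain ⟨f, hf, hf2⟩ := Submodule.exists_dual_map_eq_bot_of_notMem hx inferInstance
  have hu : f u = 0 := by
    have h1 : f u ∈ (Submodule.span ℂ {u}).map f :=
      Submodule.mem_map_of_mem (Submodule.mem_span_singleton_self u)
    rw [hf2, Submodule.mem_bot] at h1
    exact h1
  refine ⟨(f x)⁻¹ • f, ?_, ?_⟩
  · rw [LinearMap.smul_apply, hu, smul_zero]
  · rw [LinearMap.smul_apply, smul_eq_mul, inv_mul_cancel₀ hf]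

theorem bump_ne {G κ : Type} [Group G] {ρ : G →* ((κ → ℂ) →ₗ[ℂ] (κ → ℂ))}
    {S : Set (κ → ℂ)} (hF : FreeAct ρ S) {x : κ → ℂ} (hx : x ∈ S) (hx0 : x ≠ 0) {g : G}
    (hg : g ≠ 1) (a : ℂ) : x ≠ a • ρ g x := by
  intro h
  have ha : a ≠ 0 := by
    rintro rfl
    rw [zero_smul] at h
    exact hx0 h
  refine hF.2 g hg x hx hx0 a⁻¹ ?_
  conv_rhs => rw [h]
  rw [smul_smul, inv_mul_cancel₀ ha, one_smul]

/-- the linear forms `l g`: `l g (ρ g x) = 0` for `g ≠ 1`, and `l g x = 1` -/
theorem bump_forms {G κ : Type} [Group G] [Fintype κ] {ρ : G →* ((κ → ℂ) →ₗ[ℂ] (κ → ℂ))}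
    {S : Set (κ → ℂ)} (hF : FreeAct ρ S) {x : κ → ℂ} (hx : x ∈ S) (hx0 : x ≠ 0) :
    ∃ l : G → ((κ → ℂ) →ₗ[ℂ] ℂ), (∀ g, l g x = 1) ∧ ∀ g, g ≠ 1 → l g (ρ g x) = 0 := by
  classical
  have h : ∀ g : G, ∃ l : (κ → ℂ) →ₗ[ℂ] ℂ, l x = 1 ∧ (g ≠ 1 → l (ρ g x) = 0) := by
    intro g
    by_cases hg : g = 1
    · obtain ⟨l, _, hl⟩ := bump_lf (0 : κ → ℂ) x (fun a => by rw [smul_zero]; exact hx0)
      exact ⟨l, hl, fun h => absurd hg h⟩
    · obtain ⟨l, hl0, hl⟩ := bump_lf (ρ g x) x (bump_ne hF hx hx0 hg)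
      exact ⟨l, hl, fun _ => hl0⟩
  choose l h1 h2 using h
  exact ⟨l, h1, h2⟩

theorem st_BUMP0 : ST_BUMP0 := by
  classical
  intro G κ _ _ _ ρ S T hF hT x hx hx0
  obtain ⟨l, hl1, hl0⟩ := bump_forms hF hx hx0
  have hG : 1 ≤ Fintype.card G := Fintype.card_pos
  refine ⟨linp (l 1) ^ (T + 1 - Fintype.card G) *
    ∏ g ∈ Finset.univ.erase (1 : G), linp (l g), ?_, ?_, ?_⟩
  · have h1 : HomE (1 * (T + 1 - Fintype.card G)) (linp (l 1) ^ (T + 1 - Fintype.card G)) :=
      (homE_linp (l 1)).pow _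
    have h2 : HomE (1 * (Finset.univ.erase (1 : G)).card)
        (∏ g ∈ Finset.univ.erase (1 : G), linp (l g)) :=
      HomE.prod fun g _ => homE_linp (l g)
    have h3 := h1.mul h2
    have e : 1 * (T + 1 - Fintype.card G) + 1 * (Finset.univ.erase (1 : G)).card = T := by
      rw [Finset.card_erase_of_mem (Finset.mem_univ _), Finset.card_univ]
      omega
    rwa [e] at h3
  · rw [map_mul, map_pow, map_prod, eval_linp, hl1, one_pow, one_mul]
    exact Finset.prod_eq_one fun g _ => by rw [eval_linp, hl1]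
  · intro g hg
    rw [map_mul, map_prod]
    rw [Finset.prod_eq_zero (i := g)
      (Finset.mem_erase.2 ⟨hg, Finset.mem_univ g⟩) (by rw [eval_linp, hl0 g hg]), mul_zero]

/-- the trace of a polynomial -/
noncomputable def bump_tr {G κ : Type} [Group G] [Fintype G] [Fintype κ]
    (ρ : G →* ((κ → ℂ) →ₗ[ℂ] (κ → ℂ))) (q : MvPolynomial κ ℂ) : MvPolynomial κ ℂ :=
  ∑ g : G, pull (ρ g) q

section Tr

variable {G κ : Type} [Group G] [Fintype G] [Fintype κ]
  (ρ : G →* ((κ → ℂ) →ₗ[ℂ] (κ → ℂ)))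

theorem bump_eval_tr (q : MvPolynomial κ ℂ) (x : κ → ℂ) :
    eval x (bump_tr ρ q) = ∑ g : G, eval (ρ g x) q := by
  unfold bump_tr
  rw [map_sum]
  exact Finset.sum_congr rfl fun g _ => eval_pull (ρ g) q x

theorem bump_dpol_tr (q : MvPolynomial κ ℂ) (x v : κ → ℂ) :
    dpol (bump_tr ρ q) x v = ∑ g : G, dpol q (ρ g x) (ρ g v) := by
  unfold bump_tr
  rw [dpol_sum]
  exact Finset.sum_congr rfl fun g _ => dpol_pull (ρ g) q x v

theorem bump_inv_tr (q : MvPolynomial κ ℂ) : InvE ρ (bump_tr ρ q) := by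
  intro h x
  rw [bump_eval_tr, bump_eval_tr]
  have e : ∀ g : G, ρ g (ρ h x) = ρ (g * h) x := fun g => by
    rw [map_mul, Module.End.mul_apply]
  simp only [e]
  exact Equiv.sum_comp (Equiv.mulRight h) (fun g => eval (ρ g x) q)

theorem bump_hom_tr {k : ℕ} {q : MvPolynomial κ ℂ} (hq : HomE k q) : HomE k (bump_tr ρ q) :=
  HomE.sum fun g _ => homE_pull (ρ g) hq

end Tr

theorem st_BUMP (hB : ST_BUMP0) : ST_BUMP := by
  classical
  intro G κ _ _ _ ρ S k hF hk hkG
  have hG : 1 ≤ Fintype.card G := Fintype.card_pos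
  have hone : ∀ y : κ → ℂ, ρ 1 y = y := fun y => by rw [map_one, Module.End.one_apply]
  refine ⟨?_, ?_, ?_⟩
  · intro x hx hx0
    obtain ⟨q, hq, hq1, hq0⟩ := hB G κ ρ S k hF (by omega) x hx hx0
    refine ⟨bump_tr ρ q, bump_hom_tr ρ hq, bump_inv_tr ρ q, ?_⟩
    rw [bump_eval_tr, Finset.sum_eq_single (1 : G) (fun g _ hg => hq0 g hg)
      (fun h => absurd (Finset.mem_univ _) h), hone, hq1]
    exact one_ne_zero
  · intro x hx hx0 y hy hy0 hxy
    obtain ⟨l, hl1, hl0⟩ := bump_forms hF hx hx0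
    have hm : ∀ g : G, ∃ m : (κ → ℂ) →ₗ[ℂ] ℂ, m (ρ g y) = 0 ∧ m x = 1 := fun g =>
      bump_lf (ρ g y) x (hxy g)
    choose m hm0 hm1 using hm
    set q : MvPolynomial κ ℂ := linp (l 1) ^ (k + 1 - 2 * Fintype.card G) *
      (∏ g ∈ Finset.univ.erase (1 : G), linp (l g)) * ∏ g : G, linp (m g) with hqdef
    have hq : HomE k q := by
      have h1 : HomE (1 * (k + 1 - 2 * Fintype.card G))
          (linp (l 1) ^ (k + 1 - 2 * Fintype.card G)) := (homE_linp (l 1)).pow _
      have h2 : HomE (1 * (Finset.univ.erase (1 : G)).card)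
          (∏ g ∈ Finset.univ.erase (1 : G), linp (l g)) :=
        HomE.prod fun g _ => homE_linp (l g)
      have h3 : HomE (1 * (Finset.univ : Finset G).card) (∏ g : G, linp (m g)) :=
        HomE.prod fun g _ => homE_linp (m g)
      have h4 := (h1.mul h2).mul h3
      have e : 1 * (k + 1 - 2 * Fintype.card G) + 1 * (Finset.univ.erase (1 : G)).card +
          1 * (Finset.univ : Finset G).card = k := by
        rw [Finset.card_erase_of_mem (Finset.mem_univ _), Finset.card_univ]
        omega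
      rwa [e] at h4
    have hqx : eval x q = 1 := by
      rw [hqdef, map_mul, map_mul, map_pow, map_prod, map_prod, eval_linp, hl1, one_pow, one_mul,
        Finset.prod_eq_one fun g _ => by rw [eval_linp, hl1],
        Finset.prod_eq_one fun g _ => by rw [eval_linp, hm1], one_mul]
    have hqg : ∀ g : G, g ≠ 1 → eval (ρ g x) q = 0 := by
      intro g hg
      rw [hqdef, map_mul, map_mul, map_prod, Finset.prod_eq_zero (i := g)
        (Finset.mem_erase.2 ⟨hg, Finset.mem_univ g⟩) (by rw [eval_linp, hl0 g hg]), mul_zero,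
        zero_mul]
    have hqy : ∀ g : G, eval (ρ g y) q = 0 := by
      intro g
      rw [hqdef, map_mul, map_prod _ _ (Finset.univ : Finset G), Finset.prod_eq_zero (i := g)
        (Finset.mem_univ g) (by rw [eval_linp, hm0 g]), mul_zero]
    refine ⟨bump_tr ρ q, bump_hom_tr ρ hq, bump_inv_tr ρ q, ?_, ?_⟩
    · rw [bump_eval_tr, Finset.sum_eq_single (1 : G) (fun g _ hg => hqg g hg)
        (fun h => absurd (Finset.mem_univ _) h), hone, hqx]
      exact one_ne_zero
    · rw [bump_eval_tr]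
      exact Finset.sum_eq_zero fun g _ => hqy g
  · intro x hx hx0 v hv
    obtain ⟨l, hl1, hl0⟩ := bump_forms hF hx hx0
    set P : MvPolynomial κ ℂ := linp (l 1) ^ (k + 1 - 2 * Fintype.card G) *
      ∏ g ∈ Finset.univ.erase (1 : G), (linp (l g) * linp (l g)) with hPdef
    have hP : HomE (k - 1) P := by
      have h1 : HomE (1 * (k + 1 - 2 * Fintype.card G))
          (linp (l 1) ^ (k + 1 - 2 * Fintype.card G)) := (homE_linp (l 1)).pow _
      have h2 : HomE ((1 + 1) * (Finset.univ.erase (1 : G)).card)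
          (∏ g ∈ Finset.univ.erase (1 : G), (linp (l g) * linp (l g))) :=
        HomE.prod fun g _ => (homE_linp (l g)).mul (homE_linp (l g))
      have h3 := h1.mul h2
      have e : 1 * (k + 1 - 2 * Fintype.card G) + (1 + 1) * (Finset.univ.erase (1 : G)).card =
          k - 1 := by
        rw [Finset.card_erase_of_mem (Finset.mem_univ _), Finset.card_univ]
        omega
      rwa [e] at h3
    have hPx : eval x P = 1 := by
      rw [hPdef, map_mul, map_pow, map_prod, eval_linp, hl1, one_pow, one_mul]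
      exact Finset.prod_eq_one fun g _ => by rw [map_mul, eval_linp, hl1, one_mul]
    have hPg : ∀ g : G, g ≠ 1 → eval (ρ g x) P = 0 ∧ ∀ w, dpol P (ρ g x) w = 0 := by
      intro g hg
      obtain ⟨R, hR⟩ := Finset.dvd_prod_of_mem (fun g => linp (l g) * linp (l g))
        (Finset.mem_erase.2 ⟨hg, Finset.mem_univ g⟩)
      have hPR : P = linp (l 1) ^ (k + 1 - 2 * Fintype.card G) *
          (linp (l g) * linp (l g) * R) := by rw [hPdef, hR]
      constructor
      · rw [hPR]
        simp only [map_mul, eval_linp, hl0 g hg, zero_mul, mul_zero]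
      · intro w
        rw [hPR]
        simp only [dpol_mul, map_mul, eval_linp, hl0 g hg, zero_mul, mul_zero, add_zero]
    have key : ∀ m : (κ → ℂ) →ₗ[ℂ] ℂ, m v + m x * dpol P x v = 0 := by
      intro m
      have h1 : HomE k (P * linp m) := by
        have h2 := hP.mul (homE_linp m)
        have e : k - 1 + 1 = k := by omega
        rwa [e] at h2
      have h3 := hv (bump_tr ρ (P * linp m)) (bump_hom_tr ρ h1) (bump_inv_tr ρ _)
      rw [bump_dpol_tr, Finset.sum_eq_single (1 : G)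
        (fun g _ hg => by
          rw [dpol_mul, (hPg g hg).1, (hPg g hg).2, zero_mul, mul_zero, add_zero])
        (fun h => absurd (Finset.mem_univ _) h), hone, hone, dpol_mul, hPx, one_mul, dpol_linp,
        eval_linp] at h3
      exact h3
    have hvx : v = -(dpol P x v) • x := by
      funext i
      have h4 := key (LinearMap.proj i)
      simp only [LinearMap.proj_apply] at h4
      rw [Pi.smul_apply, smul_eq_mul]
      linear_combination h4
    have hc : dpol P x v = 0 := by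
      have h5 : dpol P x v = -(dpol P x v) * ((k - 1 : ℕ) * eval x P) := by
        conv_lhs => rw [hvx]
        rw [dpol_smul_right, euler hP]
      rw [hPx, mul_one] at h5
      have h6 : (((k - 1 : ℕ) : ℂ)) = k - 1 := by
        rw [Nat.cast_sub hk, Nat.cast_one]
      rw [h6] at h5
      have h7 : dpol P x v * k = 0 := by linear_combination h5
      rcases mul_eq_zero.1 h7 with h | h
      · exact h
      · exfalso
        have : k = 0 := by exact_mod_cast h
        omega
    rw [hvx, hc, neg_zero, zero_smul]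

end Pool.Agent.Helper87.VM
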